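import Pool.Agent.Q62.CC.Stm

/-!
# Project CC: integral operators with continuous kernel on `L²(α, β)` are compact

The proof of the compactness follows `Pool/Agent/H579R3/NPC3.lean` (finite rank approximations).
-/

set_option autoImplicit false
set_option linter.unusedSectionVars false

open Set Filter Topology MeasureTheory
open scoped ENNReal NNReal

namespace Pool.Agent.Q68.CC

section
variable {μ : Measure ℝ} [IsFiniteMeasure μ] {K : Set ℝ} (hK : IsCompact K) (hμ : μ Kᶜ = 0)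
  {k : ℝ → ℝ → ℝ} (hk : ContinuousOn (Function.uncurry k) (K ×ˢ K))

include hK hμ hk

lemma ae_mem : ∀ᵐ x ∂μ, x ∈ K := by
  rw [ae_iff]; exact hμ

lemma memLp_of_cont {f : ℝ → ℝ} (h1 : ContinuousOn f K) : MemLp f 2 μ := by
  have hr : μ.restrict K = μ := Measure.restrict_eq_self_of_ae_mem (ae_mem hK hμ hk)
  have h2 : AEStronglyMeasurable f μ := by
    have := h1.aestronglyMeasurable (μ := μ) hK.measurableSet
    rwa [hr] at this
  obtain ⟨C, hC⟩ := hK.exists_bound_of_continuousOn h1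
  exact MemLp.of_bound h2 C ((ae_mem hK hμ hk).mono fun y hy => hC y hy)

lemma cont_right {z : ℝ} (hz : z ∈ K) : ContinuousOn (fun y => k z y) K := by
  have h := hk.comp (f := fun y : ℝ => (z, y)) (s := K) (by fun_prop)
    (fun y hy => ⟨hz, hy⟩)
  exact h

lemma memLp_right {z : ℝ} (hz : z ∈ K) : MemLp (fun y => k z y) 2 μ :=
  memLp_of_cont hK hμ hk (cont_right hK hμ hk hz)

open Classical in
/-- the row of the kernel as an element of `L²` -/
noncomputable def H (μ : Measure ℝ) (k : ℝ → ℝ → ℝ) (z : ℝ) : Lp ℝ 2 μ :=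
  if h : MemLp (fun y => k z y) 2 μ then h.toLp else 0

omit hK hμ hk [IsFiniteMeasure μ] in
lemma H_coe {z : ℝ} (hz : MemLp (fun y => k z y) 2 μ) : H μ k z =ᵐ[μ] fun y => k z y := by
  rw [H, dif_pos hz]
  exact hz.coeFn_toLp

omit hK hμ hk [IsFiniteMeasure μ] in
lemma H_inner {z : ℝ} (hz : MemLp (fun y => k z y) 2 μ) (φ : Lp ℝ 2 μ) :
    inner ℝ (H μ k z) φ = ∫ y, k z y * φ y ∂μ := by
  rw [L2.inner_def]
  refine integral_congr_ae ?_
  filter_upwards [H_coe hz] with y hy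
  rw [hy]
  simp [mul_comm]

/-- the constant -/
noncomputable def M (μ : Measure ℝ) : ℝ := (measureUnivNNReal μ : ℝ) ^ ((2 : ℝ≥0∞).toReal⁻¹)

omit hK hμ hk in
lemma M_nonneg : 0 ≤ M μ := by unfold M; positivity

lemma H_sub {x z : ℝ} (hx : x ∈ K) (hz : z ∈ K) {ε : ℝ} (hε : 0 ≤ ε)
    (h : ∀ y ∈ K, |k x y - k z y| ≤ ε) : ‖H μ k x - H μ k z‖ ≤ M μ * ε := by
  refine Lp.norm_le_of_ae_bound hε ?_
  filter_upwards [ae_mem hK hμ hk, H_coe (memLp_right hK hμ hk hx),
    H_coe (memLp_right hK hμ hk hz), Lp.coeFn_sub (H μ k x) (H μ k z)] with y hy h1 h2 h3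
  rw [h3, Pi.sub_apply, h1, h2]
  exact h y hy

lemma H_unif : ∀ ε : ℝ, 0 < ε → ∃ δ > 0, ∀ x ∈ K, ∀ z ∈ K, dist x z ≤ δ →
    ∀ y ∈ K, |k x y - k z y| ≤ ε := by
  have huc : UniformContinuousOn (Function.uncurry k) (K ×ˢ K) :=
    (hK.prod hK).uniformContinuousOn_of_continuous hk
  rw [Metric.uniformContinuousOn_iff_le] at huc
  intro ε hε
  obtain ⟨δ, hδ, hunif⟩ := huc ε hε
  refine ⟨δ, hδ, fun x hx z hz hxz y hy => ?_⟩
  have := hunif (x, y) ⟨hx, hy⟩ (z, y) ⟨hz, hy⟩ (by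
    rw [Prod.dist_eq]; simpa using hxz)
  simpa [Real.dist_eq] using this

lemma H_cont : ContinuousOn (H μ k) K := by
  rw [Metric.continuousOn_iff]
  intro z hz ε hε
  have hM := M_nonneg (μ := μ)
  obtain ⟨δ, hδ, h⟩ := H_unif hK hμ hk (ε / (M μ + 1)) (by positivity)
  refine ⟨δ, hδ, fun x hx hxz => ?_⟩
  rw [dist_eq_norm]
  refine lt_of_le_of_lt (H_sub hK hμ hk hx hz (by positivity) (h x hx z hz hxz.le)) ?_
  have h2 : M μ * (ε / (M μ + 1)) = ε * (M μ / (M μ + 1)) := by field_simp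
  rw [h2]
  have h1 : M μ / (M μ + 1) < 1 := by
    rw [div_lt_one (by positivity)]; linarith
  calc ε * (M μ / (M μ + 1)) < ε * 1 := mul_lt_mul_of_pos_left h1 hε
    _ = ε := mul_one _

/-- a finite net -/
lemma net {δ : ℝ} (hδ : 0 < δ) (hne : K.Nonempty) :
    ∃ p : SimpleFunc ℝ ℝ, (∀ x, p x ∈ K) ∧ ∀ x ∈ K, dist x (p x) < δ := by
  classical
  obtain ⟨t, htK, htf, hcov⟩ := hK.finite_cover_balls hδ
  obtain ⟨x0, hx0⟩ := hne
  -- enumeration
  have htne : t.Nonempty := by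
    have := hcov hx0
    simp only [mem_iUnion] at this
    obtain ⟨i, hi, _⟩ := this
    exact ⟨i, hi⟩
  obtain ⟨e, he⟩ := htf.countable.exists_eq_range htne
  have hb : ∃ N : ℕ, ∀ z ∈ t, ∃ n ≤ N, e n = z := by
    have : ∀ z ∈ t, ∃ n, e n = z := by
      intro z hz
      rw [he] at hz
      exact hz
    choose! n hn using this
    obtain ⟨N, hN⟩ := (htf.image n).bddAbove
    exact ⟨N, fun z hz => ⟨n z, hN (mem_image_of_mem n hz), hn z hz⟩⟩
  obtain ⟨N, hN⟩ := hb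
  refine ⟨SimpleFunc.nearestPt e N, fun x => ?_, fun x hx => ?_⟩
  · apply htK
    rw [he]
    rw [SimpleFunc.nearestPt, SimpleFunc.map_apply]
    exact mem_range_self _
  · have := hcov hx
    simp only [mem_iUnion, Metric.mem_ball] at this
    obtain ⟨z, hz, hxz⟩ := this
    obtain ⟨n, hn, rfl⟩ := hN z hz
    have h1 := SimpleFunc.edist_nearestPt_le e x hn
    rw [dist_comm]
    refine lt_of_le_of_lt ?_ hxz
    rw [edist_dist, edist_dist, ENNReal.ofReal_le_ofReal_iff dist_nonneg] at h1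
    rw [dist_comm x (e n)]
    exact h1

/-- the finite rank approximation -/
noncomputable def Tn (μ : Measure ℝ) [IsFiniteMeasure μ] (k : ℝ → ℝ → ℝ) (p : SimpleFunc ℝ ℝ) :
    Lp ℝ 2 μ →L[ℝ] Lp ℝ 2 μ :=
  ∑ z ∈ p.range, (innerSL ℝ (H μ k z)).smulRight
    (indicatorConstLp 2 (p.measurableSet_fiber z) (measure_ne_top μ _) (1 : ℝ))

omit hK hμ hk in
lemma Tn_coe (p : SimpleFunc ℝ ℝ) (φ : Lp ℝ 2 μ) :
    Tn μ k p φ =ᵐ[μ] fun x => inner ℝ (H μ k (p x)) φ := by
  have h0 : Tn μ k p φ = ∑ z ∈ p.range, (inner ℝ (H μ k z) φ) •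
      (indicatorConstLp 2 (p.measurableSet_fiber z) (measure_ne_top μ _) (1 : ℝ)) := by
    simp [Tn]
  rw [h0]
  have h1 := Lp.coeFn_finsetSum p.range (fun z => (inner ℝ (H μ k z) φ) •
      (indicatorConstLp 2 (p.measurableSet_fiber z) (measure_ne_top μ _) (1 : ℝ)))
  have h2 : ∀ᵐ x ∂μ, ∀ z ∈ p.range, ((inner ℝ (H μ k z) φ) •
      (indicatorConstLp 2 (p.measurableSet_fiber z) (measure_ne_top μ _) (1 : ℝ)) : Lp ℝ 2 μ) x
      = (inner ℝ (H μ k z) φ) * (p ⁻¹' {z}).indicator (fun _ => (1 : ℝ)) x := by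
    refine (Filter.eventually_all_finset p.range).2 ?_
    intro z hz
    filter_upwards [Lp.coeFn_smul (inner ℝ (H μ k z) φ)
      (indicatorConstLp 2 (p.measurableSet_fiber z) (measure_ne_top μ _) (1 : ℝ)),
      indicatorConstLp_coeFn (p := 2) (hs := p.measurableSet_fiber z)
        (hμs := measure_ne_top μ _) (c := (1 : ℝ)) (μ := μ)] with x hx1 hx2
    rw [hx1, Pi.smul_apply, hx2, smul_eq_mul]
  filter_upwards [h1, h2] with x hx1 hx2
  rw [hx1, Finset.sum_apply, Finset.sum_congr rfl (fun z hz => hx2 z hz)]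
  rw [Finset.sum_eq_single (p x)]
  · simp
  · intro z _ hz
    have : x ∉ p ⁻¹' {z} := by
      intro h
      exact hz h.symm
    simp [this]
  · intro h
    exact absurd (SimpleFunc.mem_range_self p x) h

omit hK hμ hk in
lemma Tn_compact (p : SimpleFunc ℝ ℝ) : IsCompactOperator (Tn μ k p) := by
  unfold Tn
  classical
  induction p.range using Finset.induction_on with
  | empty => simpa using isCompactOperator_zero
  | insert a s ha ih =>
    rw [Finset.sum_insert ha]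
    refine IsCompactOperator.add ?_ ih
    have h1 : IsCompactOperator (innerSL ℝ (H μ k a)) :=
      isCompactOperator_of_locallyCompactSpace_dom _
    exact h1.clm_comp (ContinuousLinearMap.toSpanSingleton ℝ
      (indicatorConstLp 2 (p.measurableSet_fiber a) (measure_ne_top μ _) (1 : ℝ)))

/-- Compactness. -/
lemma compact_of_kernel (hne : K.Nonempty) (T : Lp ℝ 2 μ →L[ℝ] Lp ℝ 2 μ)
    (hH : ∀ φ : Lp ℝ 2 μ, ∀ᵐ x ∂μ, T φ x = inner ℝ (H μ k x) φ) : IsCompactOperator T := by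
  have hM := M_nonneg (μ := μ)
  have happ : ∀ ε > 0, ∃ p : SimpleFunc ℝ ℝ, ‖T - Tn μ k p‖ ≤ M μ * (M μ * ε) := by
    intro ε hε
    obtain ⟨δ, hδ, hunif⟩ := H_unif hK hμ hk ε hε
    obtain ⟨p, hpK, hp⟩ := net hK hμ hk hδ hne
    refine ⟨p, ContinuousLinearMap.opNorm_le_bound _ (by positivity) fun φ => ?_⟩
    have hb : ‖(T - Tn μ k p) φ‖ ≤ M μ * (M μ * ε * ‖φ‖) := by
      refine Lp.norm_le_of_ae_bound (by positivity) ?_
      rw [_root_.sub_apply]
      filter_upwards [Lp.coeFn_sub (T φ) (Tn μ k p φ), hH φ, Tn_coe p φ (k := k),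
        ae_mem hK hμ hk] with x h1 h2 h3 hxK
      rw [h1, Pi.sub_apply, h2, h3, ← inner_sub_left]
      refine (norm_inner_le_norm _ _).trans ?_
      refine mul_le_mul_of_nonneg_right ?_ (norm_nonneg _)
      exact H_sub hK hμ hk hxK (hpK x) hε.le (hunif x hxK (p x) (hpK x) (hp x hxK).le)
    calc _ ≤ _ := hb
      _ = _ := by ring
  have hcl := isClosed_setOfPred_isCompactOperator (σ₁₂ := RingHom.id ℝ)
    (M₁ := Lp ℝ 2 μ) (M₂ := Lp ℝ 2 μ)
  have hmem : T ∈ closure {f : Lp ℝ 2 μ →L[ℝ] Lp ℝ 2 μ | IsCompactOperator f} := by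
    rw [Metric.mem_closure_iff]
    intro ε hε
    obtain ⟨p, hp⟩ := happ (ε / (M μ * M μ + 1)) (by positivity)
    refine ⟨Tn μ k p, Tn_compact p, ?_⟩
    rw [dist_eq_norm]
    refine lt_of_le_of_lt hp ?_
    have : M μ * (M μ * (ε / (M μ * M μ + 1))) = ε * ((M μ * M μ) / (M μ * M μ + 1)) := by
      field_simp
    rw [this]
    have h1 : (M μ * M μ) / (M μ * M μ + 1) < 1 := by
      rw [div_lt_one (by positivity)]; linarith
    calc ε * ((M μ * M μ) / (M μ * M μ + 1)) < ε * 1 := mul_lt_mul_of_pos_left h1 hε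
      _ = ε := mul_one _
  rw [hcl.closure_eq] at hmem
  exact hmem

lemma memLp_op (φ : Lp ℝ 2 μ) : MemLp (fun x => inner ℝ (H μ k x) φ) 2 μ :=
  memLp_of_cont hK hμ hk (ContinuousOn.inner (𝕜 := ℝ) (H_cont hK hμ hk) continuousOn_const)

/-- Existence. -/
lemma exists_op : ∃ T : Lp ℝ 2 μ →L[ℝ] Lp ℝ 2 μ,
    ∀ φ : Lp ℝ 2 μ, T φ =ᵐ[μ] fun x => inner ℝ (H μ k x) φ := by
  obtain ⟨C, hC⟩ := hK.exists_bound_of_continuousOn (H_cont hK hμ hk)
  have hM := M_nonneg (μ := μ)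
  let L : Lp ℝ 2 μ →ₗ[ℝ] Lp ℝ 2 μ :=
    { toFun := fun φ => (memLp_op hK hμ hk φ).toLp
      map_add' := fun φ ψ => by
        apply Lp.ext
        filter_upwards [(memLp_op hK hμ hk (φ + ψ)).coeFn_toLp, (memLp_op hK hμ hk φ).coeFn_toLp,
          (memLp_op hK hμ hk ψ).coeFn_toLp,
          Lp.coeFn_add (memLp_op hK hμ hk φ).toLp (memLp_op hK hμ hk ψ).toLp] with x h1 h2 h3 h4
        rw [h1, h4, Pi.add_apply, h2, h3, inner_add_right]
      map_smul' := fun c φ => by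
        apply Lp.ext
        filter_upwards [(memLp_op hK hμ hk (c • φ)).coeFn_toLp, (memLp_op hK hμ hk φ).coeFn_toLp,
          Lp.coeFn_smul c (memLp_op hK hμ hk φ).toLp] with x h1 h2 h4
        rw [RingHom.id_apply, h1, h4, Pi.smul_apply, h2, inner_smul_right, smul_eq_mul] }
  have hL : ∀ φ, L φ =ᵐ[μ] fun x => inner ℝ (H μ k x) φ := fun φ =>
    (memLp_op hK hμ hk φ).coeFn_toLp
  refine ⟨L.mkContinuous (M μ * |C|) fun φ => ?_, fun φ => hL φ⟩
  have hb : ‖L φ‖ ≤ M μ * (|C| * ‖φ‖) := by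
    refine Lp.norm_le_of_ae_bound (by positivity) ?_
    filter_upwards [hL φ, ae_mem hK hμ hk] with x hx hxK
    rw [hx]
    refine (norm_inner_le_norm _ _).trans ?_
    exact mul_le_mul_of_nonneg_right ((hC x hxK).trans (le_abs_self C)) (norm_nonneg _)
  rw [mul_assoc]
  exact hb

end

/-- Integral operators with continuous kernel are compact. -/
theorem t_HSA : Pool.Agent.Q62.CC.S_HSA := by
  intro α β k hab hk
  have hK : IsCompact (Icc α β) := isCompact_Icc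
  have hμ : (volume.restrict (Icc α β)) (Icc α β)ᶜ = 0 := by
    rw [Measure.restrict_apply measurableSet_Icc.compl]
    simp
  have hk' : ContinuousOn (Function.uncurry k) (Icc α β ×ˢ Icc α β) := hk
  obtain ⟨T, hT⟩ := exists_op hK hμ hk'
  refine ⟨T, compact_of_kernel hK hμ hk' (nonempty_Icc.2 hab.le) T hT, fun g => ?_⟩
  filter_upwards [hT g, ae_mem hK hμ hk'] with x hx hxK
  rw [hx, H_inner (memLp_right hK hμ hk' hxK)]

end Pool.Agent.Q68.CC
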