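import Mathlib

/-! Automorphisms of standard probability spaces, characteristic classes and the largest factor
which belongs to a characteristic class. -/

open MeasureTheory

namespace Q68.CC

/-- An automorphism: an invertible measure preserving map of a standard probability space. -/
structure Aut where
  /-- the space -/
  carrier : Type
  [ms : MeasurableSpace carrier]
  [sb : StandardBorelSpace carrier]
  /-- the probability measure -/
  μ : Measure carrier
  [prob : IsProbabilityMeasure μ]
  /-- the invertible map -/
  T : carrier ≃ᵐ carrier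
  mp : MeasurePreserving T μ μ

attribute [instance] Aut.ms Aut.sb Aut.prob

/-- `φ` is a factor map from `A` to `B`. In particular, `B` is a factor of `A`. An isomorphism is
a factor map which has an (almost everywhere) inverse. -/
structure IsFactorMap (A B : Aut) (φ : A.carrier → B.carrier) : Prop where
  mp : MeasurePreserving φ A.μ B.μ
  comm : ∀ᵐ x ∂A.μ, φ (A.T x) = B.T (φ x)

/-- `lam` is a joining of the automorphisms `A i`: an invariant probability measure on the product
with marginals `(A i).μ`. -/
structure IsJoining {ι : Type} (A : ι → Aut) (lam : Measure (∀ i, (A i).carrier)) : Prop where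
  prob : IsProbabilityMeasure lam
  marginal : ∀ i, lam.map (fun x => x i) = (A i).μ
  invariant : MeasurePreserving (fun x i => (A i).T (x i)) lam lam

/-- The automorphism which is given by a joining. -/
def joinAut {ι : Type} [Countable ι] (A : ι → Aut) (lam : Measure (∀ i, (A i).carrier))
    (h : IsJoining A lam) : Aut where
  carrier := ∀ i, (A i).carrier
  μ := lam
  prob := h.prob
  T := MeasurableEquiv.piCongrRight fun i => (A i).T
  mp := h.invariant

/-- The identity map of a standard probability space. -/
def idAut (Y : Type) [MeasurableSpace Y] [StandardBorelSpace Y] (ν : Measure Y)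
    [IsProbabilityMeasure ν] : Aut where
  carrier := Y
  μ := ν
  T := MeasurableEquiv.refl Y
  mp := MeasurePreserving.id ν

/-- A characteristic class (containing the identity maps): a class of automorphisms closed under
factors (hence under isomorphism) and under countable joinings. -/
structure IsCharacteristicClass (F : Aut → Prop) : Prop where
  factor : ∀ (A B : Aut) (φ : A.carrier → B.carrier), IsFactorMap A B φ → F A → F B
  joining : ∀ (ι : Type) [Countable ι] (A : ι → Aut) (lam : Measure (∀ i, (A i).carrier))
    (h : IsJoining A lam), (∀ i, F (A i)) → F (joinAut A lam h)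
  identity : ∀ (Y : Type) [MeasurableSpace Y] [StandardBorelSpace Y] (ν : Measure Y)
    [IsProbabilityMeasure ν], F (idAut Y ν)

/-- Inclusion of σ-algebras modulo null sets. -/
def LeModNull {X : Type*} {m0 : MeasurableSpace X} (μ : Measure X) (m m' : MeasurableSpace X) :
    Prop :=
  ∀ s, MeasurableSet[m] s → ∃ t, MeasurableSet[m'] t ∧ s =ᵐ[μ] t

/-- Equality of σ-algebras modulo null sets. -/
def EqModNull {X : Type*} {m0 : MeasurableSpace X} (μ : Measure X) (m m' : MeasurableSpace X) :
    Prop :=
  LeModNull μ m m' ∧ LeModNull μ m' m

/-- `𝒟` is a `T`-invariant sub-σ-algebra whose factor lies in `F`: the factor is given by a factor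
map `φ : A → B` with `B` in `F` which generates `𝒟`. -/
structure FactorIn (F : Aut → Prop) (A : Aut) (𝒟 : MeasurableSpace A.carrier) : Prop where
  le : 𝒟 ≤ A.ms
  invariant : EqModNull A.μ (𝒟.comap A.T) 𝒟
  mem : ∃ (B : Aut) (φ : A.carrier → B.carrier), IsFactorMap A B φ ∧ F B ∧
    EqModNull A.μ 𝒟 (B.ms.comap φ)

/-- `𝒟` is `𝒜(F)(T)`: the largest `T`-invariant sub-σ-algebra whose factor lies in `F`. -/
def IsLargest (F : Aut → Prop) (A : Aut) (𝒟 : MeasurableSpace A.carrier) : Prop :=
  FactorIn F A 𝒟 ∧ ∀ 𝒟', FactorIn F A 𝒟' → LeModNull A.μ 𝒟' 𝒟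

/-- The automorphism `T × Id_Y`. -/
noncomputable def prodId (A : Aut) (Y : Type) [MeasurableSpace Y] [StandardBorelSpace Y]
    (ν : Measure Y) [IsProbabilityMeasure ν] : Aut where
  carrier := A.carrier × Y
  μ := A.μ.prod ν
  T := A.T.prodCongr (MeasurableEquiv.refl Y)
  mp := A.mp.prod (MeasurePreserving.id ν)

end Q68.CC
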