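import Mathlib
import Pool.Agent.Q68.CC.Defs

/-! The σ-algebra of sets which belong to some factor of a characteristic class. -/

open MeasureTheory Filter Topology Set

namespace Q68.CC

lemma IsFactorMap.comp {A B C : Aut} {φ : A.carrier → B.carrier} {ψ : B.carrier → C.carrier}
    (hψ : IsFactorMap B C ψ) (hφ : IsFactorMap A B φ) : IsFactorMap A C (ψ ∘ φ) where
  mp := hψ.mp.comp hφ.mp
  comm := by
    filter_upwards [hφ.comm, hφ.mp.quasiMeasurePreserving.ae hψ.comm] with x h1 h2
    simp only [Function.comp]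
    rw [h1, h2]

/-- The set `s` belongs (mod null sets) to a factor in `F`. -/
def InF (F : Aut → Prop) (A : Aut) (s : Set A.carrier) : Prop :=
  MeasurableSet s ∧ ∃ (B : Aut) (φ : A.carrier → B.carrier), IsFactorMap A B φ ∧ F B ∧
    ∃ t, MeasurableSet t ∧ s =ᵐ[A.μ] φ ⁻¹' t

lemma join {F : Aut → Prop} (hF : IsCharacteristicClass F) {ι : Type} [Countable ι] (A : Aut)
    (B : ι → Aut) (φ : ∀ i, A.carrier → (B i).carrier) (h : ∀ i, IsFactorMap A (B i) (φ i))
    (hB : ∀ i, F (B i)) :
    ∃ (C : Aut) (ψ : A.carrier → C.carrier), IsFactorMap A C ψ ∧ F C ∧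
      ∀ i, ∃ p : C.carrier → (B i).carrier, Measurable p ∧ ∀ x, φ i x = p (ψ x) := by
  let ψ : A.carrier → ∀ i, (B i).carrier := fun x i => φ i x
  have hψ : Measurable ψ := measurable_pi_lambda _ fun i => (h i).mp.measurable
  have hcomm : ∀ᵐ x ∂A.μ, ψ (A.T x) = fun i => (B i).T (ψ x i) := by
    have := ae_all_iff.2 fun i => (h i).comm
    filter_upwards [this] with x hx
    funext i
    exact hx i
  have hR : Measurable (fun (z : ∀ i, (B i).carrier) i => (B i).T (z i)) :=
    measurable_pi_lambda _ fun i => (B i).T.measurable.comp (measurable_pi_apply i)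
  have hJ : IsJoining B (A.μ.map ψ) := by
    refine ⟨Measure.isProbabilityMeasure_map hψ.aemeasurable, fun i => ?_, hR, ?_⟩
    · rw [Measure.map_map (measurable_pi_apply i) hψ]
      exact (h i).mp.map_eq
    · rw [Measure.map_map hR hψ]
      have e1 : Measure.map ((fun (z : ∀ i, (B i).carrier) i => (B i).T (z i)) ∘ ψ) A.μ =
          Measure.map (ψ ∘ A.T) A.μ := by
        apply Measure.map_congr
        filter_upwards [hcomm] with x hx
        exact hx.symm
      rw [e1, ← Measure.map_map hψ A.T.measurable, A.mp.map_eq]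
  refine ⟨joinAut B (A.μ.map ψ) hJ, ψ, ⟨⟨hψ, rfl⟩, hcomm⟩, hF.joining ι B _ hJ hB, fun i => ?_⟩
  exact ⟨fun z => z i, measurable_pi_apply i, fun x => rfl⟩

lemma InF.congr {F : Aut → Prop} {A : Aut} {s t : Set A.carrier} (hs : InF F A s)
    (ht : MeasurableSet t) (h : t =ᵐ[A.μ] s) : InF F A t := by
  obtain ⟨-, B, φ, h1, h2, u, hu, h3⟩ := hs
  exact ⟨ht, B, φ, h1, h2, u, hu, h.trans h3⟩

lemma InF.compl {F : Aut → Prop} {A : Aut} {s : Set A.carrier} (hs : InF F A s) :
    InF F A sᶜ := by
  obtain ⟨h0, B, φ, h1, h2, u, hu, h3⟩ := hs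
  exact ⟨h0.compl, B, φ, h1, h2, uᶜ, hu.compl, h3.compl⟩

lemma InF.iUnion {F : Aut → Prop} (hF : IsCharacteristicClass F) {A : Aut}
    {s : ℕ → Set A.carrier} (hs : ∀ n, InF F A (s n)) : InF F A (⋃ n, s n) := by
  choose h0 B φ h1 h2 u hu h3 using hs
  obtain ⟨C, ψ, hψ, hC, hp⟩ := join hF A B φ h1 h2
  choose p hpm hpe using hp
  refine ⟨MeasurableSet.iUnion h0, C, ψ, hψ, hC, ⋃ n, p n ⁻¹' (u n),
    MeasurableSet.iUnion fun n => hpm n (hu n), ?_⟩
  rw [preimage_iUnion]
  apply Filter.EventuallyEq.countable_iUnion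
  intro n
  refine (h3 n).trans ?_
  have : φ n ⁻¹' u n = ψ ⁻¹' (p n ⁻¹' u n) := by
    ext x
    simp only [mem_preimage, hpe]
  exact this.eventuallyEq

/-- The σ-algebra of the sets which belong to some factor in `F`. -/
@[reducible] def charAlg {F : Aut → Prop} (hF : IsCharacteristicClass F) (A : Aut) :
    MeasurableSpace A.carrier where
  MeasurableSet' s := InF F A s
  measurableSet_empty := ⟨MeasurableSet.empty, idAut Unit (Measure.dirac ()), fun _ => (),
    ⟨⟨measurable_const, by
      show Measure.map (fun _ : A.carrier => ()) A.μ = Measure.dirac ()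
      rw [Measure.map_const]
      simp⟩, Filter.Eventually.of_forall fun _ => rfl⟩, hF.identity _ _, ∅, MeasurableSet.empty,
      EventuallyEq.rfl⟩
  measurableSet_compl s hs := InF.compl hs
  measurableSet_iUnion s hs := InF.iUnion hF hs

lemma measurableSet_charAlg {F : Aut → Prop} (hF : IsCharacteristicClass F) {A : Aut}
    {s : Set A.carrier} : MeasurableSet[charAlg hF A] s ↔ InF F A s := Iff.rfl

lemma charAlg_le {F : Aut → Prop} (hF : IsCharacteristicClass F) (A : Aut) :
    charAlg hF A ≤ A.ms := fun _ hs => hs.1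

/-- pull back of sets by factor maps -/
lemma InF.preimage {F : Aut → Prop} {A' A : Aut} {ρ : A'.carrier → A.carrier}
    (hρ : IsFactorMap A' A ρ) {s : Set A.carrier} (hs : InF F A s) : InF F A' (ρ ⁻¹' s) := by
  obtain ⟨h0, B, φ, h1, h2, u, hu, h3⟩ := hs
  exact ⟨hρ.mp.measurable h0, B, φ ∘ ρ, h1.comp hρ, h2, u, hu,
    hρ.mp.quasiMeasurePreserving.preimage_ae_eq h3⟩

/-- integer powers -/
def pw (A : Aut) (n : ℤ) : A.carrier → A.carrier := ((A.T.toEquiv ^ n : Equiv.Perm A.carrier))

lemma pw_zero (A : Aut) (x : A.carrier) : pw A 0 x = x := rfl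

lemma pw_add_one (A : Aut) (n : ℤ) (x : A.carrier) : pw A (n + 1) x = pw A n (A.T x) := by
  unfold pw
  rw [zpow_add_one]
  rfl

lemma pw_sub_one (A : Aut) (n : ℤ) (x : A.carrier) : pw A (n - 1) x = pw A n (A.T.symm x) := by
  have h := pw_add_one A (n - 1) (A.T.symm x)
  rw [sub_add_cancel, A.T.apply_symm_apply] at h
  exact h.symm

lemma mp_symm (A : Aut) : MeasurePreserving A.T.symm A.μ A.μ := A.mp.symm

lemma mp_pw (A : Aut) (n : ℤ) : MeasurePreserving (pw A n) A.μ A.μ := by
  induction n using Int.induction_on with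
  | zero => exact MeasurePreserving.id _
  | succ n ih =>
    have : pw A (n + 1) = pw A n ∘ A.T := by funext x; exact pw_add_one A n x
    rw [this]
    exact ih.comp A.mp
  | pred n ih =>
    have : pw A (-n - 1) = pw A (-n) ∘ A.T.symm := by funext x; exact pw_sub_one A (-n) x
    rw [this]
    exact ih.comp (mp_symm A)

lemma IsFactorMap.comm_symm {A B : Aut} {φ : A.carrier → B.carrier} (h : IsFactorMap A B φ) :
    ∀ᵐ x ∂A.μ, φ (A.T.symm x) = B.T.symm (φ x) := by
  filter_upwards [(mp_symm A).quasiMeasurePreserving.ae h.comm] with x hx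
  rw [A.T.apply_symm_apply] at hx
  rw [hx, B.T.symm_apply_apply]

lemma IsFactorMap.comm_pw {A B : Aut} {φ : A.carrier → B.carrier} (h : IsFactorMap A B φ) (n : ℤ) :
    ∀ᵐ x ∂A.μ, φ (pw A n x) = pw B n (φ x) := by
  induction n using Int.induction_on with
  | zero => exact Eventually.of_forall fun x => rfl
  | succ n ih =>
    filter_upwards [A.mp.quasiMeasurePreserving.ae ih, h.comm] with x h1 h2
    rw [pw_add_one, pw_add_one, h1, h2]
  | pred n ih =>
    filter_upwards [(mp_symm A).quasiMeasurePreserving.ae ih, h.comm_symm] with x h1 h2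
    rw [pw_sub_one, pw_sub_one, h1, h2]

open Classical in
/-- the itinerary of a point with respect to a set -/
noncomputable def itin (A : Aut) (s : Set A.carrier) (x : A.carrier) : ℤ → Bool :=
  fun n => decide (pw A n x ∈ s)

lemma measurable_itin (A : Aut) {s : Set A.carrier} (hs : MeasurableSet s) :
    Measurable (itin A s) := by
  classical
  apply measurable_pi_lambda
  intro n
  apply measurable_to_bool
  have : (fun x => itin A s x n) ⁻¹' {true} = pw A n ⁻¹' s := by
    ext x
    simp [itin]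
  rw [this]
  exact (mp_pw A n).measurable hs

/-- the shift of `ℤ → Bool` -/
def shiftB : (ℤ → Bool) ≃ᵐ (ℤ → Bool) where
  toFun := fun ω n => ω (n + 1)
  invFun := fun ω n => ω (n - 1)
  left_inv := fun ω => by funext n; simp
  right_inv := fun ω => by funext n; simp
  measurable_toFun := measurable_pi_lambda _ fun n => measurable_pi_apply _
  measurable_invFun := measurable_pi_lambda _ fun n => measurable_pi_apply _

lemma itin_T (A : Aut) (s : Set A.carrier) (x : A.carrier) :
    itin A s (A.T x) = shiftB (itin A s x) := by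
  classical
  funext n
  show itin A s (A.T x) n = itin A s x (n + 1)
  unfold itin
  rw [pw_add_one]

/-- the symbolic factor given by a set -/
noncomputable def itinAut (A : Aut) {s : Set A.carrier} (hs : MeasurableSet s) : Aut where
  carrier := ℤ → Bool
  μ := A.μ.map (itin A s)
  prob := Measure.isProbabilityMeasure_map (measurable_itin A hs).aemeasurable
  T := shiftB
  mp := by
    refine ⟨shiftB.measurable, ?_⟩
    rw [Measure.map_map shiftB.measurable (measurable_itin A hs)]
    have : (shiftB ∘ itin A s) = itin A s ∘ A.T := by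
      funext x
      exact (itin_T A s x).symm
    rw [this, ← Measure.map_map (measurable_itin A hs) A.T.measurable, A.mp.map_eq]

lemma itin_factor (A : Aut) {s : Set A.carrier} (hs : MeasurableSet s) :
    IsFactorMap A (itinAut A hs) (itin A s) :=
  ⟨⟨measurable_itin A hs, rfl⟩, Eventually.of_forall fun x => itin_T A s x⟩

/-- A set of a factor of `A'` which belongs to an `F`-factor of `A'` belongs to an `F`-factor of
the factor. -/
lemma InF.descend {F : Aut → Prop} (hF : IsCharacteristicClass F) {A' A : Aut}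
    {ρ : A'.carrier → A.carrier} (hρ : IsFactorMap A' A ρ) {s : Set A.carrier}
    (hs : MeasurableSet s) (h : InF F A' (ρ ⁻¹' s)) : InF F A s := by
  obtain ⟨-, B, φ, h1, h2, u, hu, h3⟩ := h
  have key : ∀ᵐ z ∂A'.μ, itin B u (φ z) = itin A s (ρ z) := by
    have e : ∀ n : ℤ, ∀ᵐ z ∂A'.μ, (pw B n (φ z) ∈ u ↔ pw A n (ρ z) ∈ s) := by
      intro n
      filter_upwards [h1.comm_pw n, hρ.comm_pw n,
        (mp_pw A' n).quasiMeasurePreserving.ae (h3.mem_iff)] with z e1 e2 e3
      rw [← e1, ← e2]
      exact e3.symm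
    filter_upwards [ae_all_iff.2 e] with z hz
    funext n
    unfold itin
    exact decide_eq_decide.2 (hz n)
  have hfac : IsFactorMap B (itinAut A hs) (itin B u) := by
    refine ⟨⟨measurable_itin B hu, ?_⟩, Eventually.of_forall fun x => itin_T B u x⟩
    show Measure.map (itin B u) B.μ = Measure.map (itin A s) A.μ
    rw [← h1.mp.map_eq, ← hρ.mp.map_eq, Measure.map_map (measurable_itin B hu) h1.mp.measurable,
      Measure.map_map (measurable_itin A hs) hρ.mp.measurable]
    exact Measure.map_congr key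
  refine ⟨hs, itinAut A hs, itin A s, itin_factor A hs, hF.factor _ _ _ hfac h2,
    (fun ω : ℤ → Bool => ω 0) ⁻¹' {true}, ?_, ?_⟩
  · exact measurable_pi_apply (0 : ℤ) (measurableSet_singleton _)
  · have : itin A s ⁻¹' ((fun ω : ℤ → Bool => ω 0) ⁻¹' {true}) = s := by
      ext x
      unfold itin
      simp only [mem_preimage, mem_singleton_iff, pw_zero]
      exact @decide_eq_true_iff _ (Classical.propDecidable _)
    exact this.symm.eventuallyEq

end Q68.CC
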