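import Mathlib
import Pool.Agent.Q68.CC.Basic

/-! The product of an automorphism with an identity map. -/

open MeasureTheory ProbabilityTheory Filter Topology Set

namespace Q68.CC

variable {F : Aut → Prop} (hF : IsCharacteristicClass F) (A : Aut) (Y : Type) [MeasurableSpace Y]
  [StandardBorelSpace Y] (ν : Measure Y) [IsProbabilityMeasure ν]

lemma fst_factor : IsFactorMap (prodId A Y ν) A Prod.fst :=
  ⟨measurePreserving_fst (μ := A.μ) (ν := ν), Eventually.of_forall fun _ => rfl⟩

lemma snd_factor : IsFactorMap (prodId A Y ν) (idAut Y ν) Prod.snd :=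
  ⟨measurePreserving_snd (μ := A.μ) (ν := ν), Eventually.of_forall fun _ => rfl⟩

/-- the law of an infinite sequence of points of `Y` -/
noncomputable abbrev nuInf : Measure (ℕ → Y) := Measure.infinitePi fun _ => ν

/-- the map `(x, y) ↦ (x, y i)` -/
def coordMap (i : ℕ) : A.carrier × (ℕ → Y) → A.carrier × Y := fun z => (z.1, z.2 i)

lemma coord_factor (i : ℕ) :
    IsFactorMap (prodId A (ℕ → Y) (nuInf Y ν)) (prodId A Y ν) (coordMap A Y i) := by
  refine ⟨?_, Eventually.of_forall fun _ => rfl⟩
  exact (MeasurePreserving.id A.μ).prod (measurePreserving_eval_infinitePi (fun _ : ℕ => ν) i)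

/-- the average of an indicator function -/
noncomputable def avg (s : Set (A.carrier × Y)) (n : ℕ) (z : A.carrier × (ℕ → Y)) : ℝ :=
  (∑ i ∈ Finset.range n, s.indicator (fun _ => (1 : ℝ)) (z.1, z.2 i)) / n

lemma lln {s : Set (A.carrier × Y)} (hs : MeasurableSet s) (x : A.carrier) :
    ∀ᵐ y ∂(nuInf Y ν), Tendsto (fun n => avg A Y s n (x, y)) atTop
      (𝓝 (ν.real (Prod.mk x ⁻¹' s))) := by
  have hsx : MeasurableSet (Prod.mk x ⁻¹' s) := measurable_prodMk_left hs
  set g : Y → ℝ := (Prod.mk x ⁻¹' s).indicator (fun _ => (1 : ℝ)) with hg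
  have hgm : Measurable g := measurable_const.indicator hsx
  have hmp : ∀ i, MeasurePreserving (fun y : ℕ → Y => y i) (nuInf Y ν) ν := fun i =>
    measurePreserving_eval_infinitePi (fun _ : ℕ => ν) i
  have hX : ∀ i, Measurable (fun y : ℕ → Y => g (y i)) := fun i => hgm.comp (measurable_pi_apply i)
  have hind : iIndepFun (fun (i : ℕ) (y : ℕ → Y) => g (y i)) (nuInf Y ν) :=
    iIndepFun_infinitePi (X := fun _ => g) (fun _ => hgm)
  have hident : ∀ i, IdentDistrib (fun y : ℕ → Y => g (y i)) (fun y : ℕ → Y => g (y 0))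
      (nuInf Y ν) (nuInf Y ν) := by
    intro i
    refine ⟨(hX i).aemeasurable, (hX 0).aemeasurable, ?_⟩
    have e : ∀ j, Measure.map (fun y : ℕ → Y => g (y j)) (nuInf Y ν) = Measure.map g ν := by
      intro j
      have h5 := Measure.map_map (μ := nuInf Y ν) hgm (measurable_pi_apply (X := fun _ : ℕ => Y) j)
      rw [(hmp j).map_eq] at h5
      exact h5.symm
    rw [e i, e 0]
  have hint : Integrable (fun y : ℕ → Y => g (y 0)) (nuInf Y ν) := by
    apply Integrable.of_bound (hX 0).aestronglyMeasurable 1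
    refine Eventually.of_forall fun y => ?_
    simp only [hg, Set.indicator, Real.norm_eq_abs]
    split_ifs <;> simp
  have h := strong_law_ae_real (fun (i : ℕ) (y : ℕ → Y) => g (y i)) hint
    (fun i j hij => hind.indepFun hij) hident
  have hval : ∫ y, g (y 0) ∂(nuInf Y ν) = ν.real (Prod.mk x ⁻¹' s) := by
    have e1 : ∫ y, g (y 0) ∂(nuInf Y ν) = ∫ y, g y ∂ν := by
      have h5 := integral_map (μ := nuInf Y ν)
        (measurable_pi_apply (X := fun _ : ℕ => Y) 0).aemeasurable
        (f := g) hgm.aestronglyMeasurable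
      rw [(hmp 0).map_eq] at h5
      exact h5.symm
    rw [e1, hg, integral_indicator_const _ hsx]
    simp
  rw [hval] at h
  exact h

/-- The measure of the sections is measurable with respect to the σ-algebra of `F`. -/
lemma measurable_section {s : Set (A.carrier × Y)} (hs : InF F (prodId A Y ν) s) :
    Measurable[charAlg hF A] (fun x => ν.real (Prod.mk x ⁻¹' s)) := by
  have hs0 : MeasurableSet s := hs.1
  have hum : Measurable (fun x : A.carrier => ν.real (Prod.mk x ⁻¹' s)) :=
    (measurable_measure_prodMk_left hs0).ennreal_toReal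
  let A' : Aut := prodId A (ℕ → Y) (nuInf Y ν)
  have havg : ∀ n, Measurable[charAlg hF A'] (avg A Y s n) := by
    intro n
    have : ∀ i, Measurable[charAlg hF A'] (fun z : A.carrier × (ℕ → Y) =>
        s.indicator (fun _ => (1 : ℝ)) (z.1, z.2 i)) := by
      intro i
      have h1 : InF F A' (coordMap A Y i ⁻¹' s) := hs.preimage (coord_factor A Y ν i)
      have h2 : (fun z : A.carrier × (ℕ → Y) => s.indicator (fun _ => (1 : ℝ)) (z.1, z.2 i)) =
          (coordMap A Y i ⁻¹' s).indicator (fun _ => (1 : ℝ)) := rfl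
      rw [h2]
      exact Measurable.indicator (m := charAlg hF A') measurable_const h1
    unfold avg
    exact Measurable.div_const (m := charAlg hF A')
      (Finset.measurable_sum (m := charAlg hF A') _ fun i _ => this i) _
  have hL : Measurable[charAlg hF A'] (fun z => limsup (fun n => avg A Y s n z) atTop) :=
    Measurable.limsup (mδ := charAlg hF A') havg
  have hae : ∀ᵐ z ∂A'.μ, ν.real (Prod.mk z.1 ⁻¹' s) = limsup (fun n => avg A Y s n z) atTop := by
    have havg' : ∀ n, Measurable (avg A Y s n) := fun n => (havg n).mono (charAlg_le hF A') le_rfl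
    have hset : MeasurableSet {z : A.carrier × (ℕ → Y) |
        Tendsto (fun n => avg A Y s n z) atTop (𝓝 (ν.real (Prod.mk z.1 ⁻¹' s)))} :=
      measurableSet_tendsto_fun havg' (hum.comp measurable_fst)
    have h3 := (Measure.ae_prod_iff_ae_ae (μ := A.μ) (ν := nuInf Y ν) hset).2
      (Eventually.of_forall fun x => lln A Y ν hs0 x)
    filter_upwards [h3] with z hz
    exact hz.limsup_eq.symm
  refine @measurable_of_Ioi _ _ _ _ _ (charAlg hF A) _ _ _ _ fun c => ?_
  show InF F A _
  apply InF.descend hF (fst_factor A (ℕ → Y) (nuInf Y ν)) (hum measurableSet_Ioi)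
  have h4 : InF F A' ((fun z => limsup (fun n => avg A Y s n z) atTop) ⁻¹' (Ioi c)) :=
    hL measurableSet_Ioi
  refine h4.congr ((hum.comp measurable_fst) measurableSet_Ioi) ?_
  have : ∀ᵐ z ∂A'.μ, (z ∈ (Prod.fst ⁻¹' ((fun x => ν.real (Prod.mk x ⁻¹' s)) ⁻¹' Ioi c) :
      Set (A.carrier × (ℕ → Y)))) ↔
      z ∈ ((fun z => limsup (fun n => avg A Y s n z) atTop) ⁻¹' (Ioi c)) := by
    filter_upwards [hae] with z hz
    simp only [mem_preimage, mem_Ioi, hz]
  exact Filter.eventuallyEq_set.2 this

end Q68.CC
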