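import Mathlib
import Pool.Agent.Q68.CC.Main

/-! Sets with measurable sections; the product formula. -/

open MeasureTheory ProbabilityTheory Filter Topology Set

namespace Q68.CC

lemma setIntegral_eq_zero_of_rect {X Y : Type*} {mX : MeasurableSpace X} {mY : MeasurableSpace Y}
    {P : Measure (X × Y)} [IsFiniteMeasure P] {g : X × Y → ℝ} (hg : Integrable g P)
    (h : ∀ B : Set X, MeasurableSet B → ∀ C : Set Y, MeasurableSet C →
      ∫ z in B ×ˢ C, g z ∂P = 0) : ∀ S, MeasurableSet S → ∫ z in S, g z ∂P = 0 := by
  intro S hS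
  have htot : ∫ z, g z ∂P = 0 := by
    have := h univ MeasurableSet.univ univ MeasurableSet.univ
    rwa [univ_prod_univ, setIntegral_univ] at this
  induction S, hS using MeasurableSpace.induction_on_inter generateFrom_prod.symm isPiSystem_prod with
  | empty => simp
  | basic t ht =>
    obtain ⟨B, hB, C, hC, rfl⟩ := ht
    exact h B hB C hC
  | compl t htm ih =>
    have := integral_add_compl htm hg
    rw [htot, ih] at this
    linarith
  | iUnion f hd hm ih =>
    rw [integral_iUnion hm hd hg.integrableOn]
    simp [ih]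

variable {F : Aut → Prop} (hF : IsCharacteristicClass F) (A : Aut) (Y : Type)
  [mY : MeasurableSpace Y] [StandardBorelSpace Y] (ν : Measure Y) [IsProbabilityMeasure ν]

lemma inF_cyl {C : Set Y} (hC : MeasurableSet C) :
    InF F (prodId A Y ν) (Prod.snd ⁻¹' C) ∨ ¬ IsCharacteristicClass F := by
  by_cases hF : IsCharacteristicClass F
  · left
    have h : InF F (idAut Y ν) C :=
      ⟨hC, idAut Y ν, id, ⟨MeasurePreserving.id _, Eventually.of_forall fun _ => rfl⟩,
        hF.identity Y ν, C, hC, EventuallyEq.rfl⟩
    exact h.preimage (snd_factor A Y ν)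
  · exact Or.inr hF

lemma le_charAlg_prod : (charAlg hF A).prod mY ≤ charAlg hF (prodId A Y ν) := by
  apply sup_le
  · rintro _ ⟨s, hs, rfl⟩
    exact InF.preimage (fst_factor A Y ν) hs
  · rintro _ ⟨C, hC, rfl⟩
    exact (inF_cyl A Y ν hC).resolve_right (not_not.2 hF)

theorem prod_main {s : Set (A.carrier × Y)} (hs : InF F (prodId A Y ν) s) :
    ∃ t, MeasurableSet[(charAlg hF A).prod mY] t ∧ s =ᵐ[A.μ.prod ν] t := by
  have hs0 : MeasurableSet s := hs.1
  have hmle : charAlg hF A ≤ A.ms := charAlg_le hF A
  have hG : (charAlg hF A).prod mY ≤ A.ms.prod mY :=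
    sup_le_sup (MeasurableSpace.comap_mono hmle) le_rfl
  have hGm : @Prod.instMeasurableSpace _ _ (charAlg hF A) mY = (charAlg hF A).prod mY := rfl
  obtain ⟨f, hf⟩ : ∃ f : A.carrier × Y → ℝ, f = s.indicator (fun _ => (1 : ℝ)) := ⟨_, rfl⟩
  have hfm : Measurable f := by rw [hf]; exact measurable_const.indicator hs0
  have hfint : Integrable f (A.μ.prod ν) := by
    apply Integrable.of_bound hfm.aestronglyMeasurable 1
    refine Eventually.of_forall fun y => ?_
    rw [hf]
    simp only [Set.indicator, Real.norm_eq_abs]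
    split_ifs <;> simp
  obtain ⟨φ, hφ⟩ : ∃ φ : A.carrier × Y → ℝ,
    φ = (A.μ.prod ν)[f | (charAlg hF A).prod mY] := ⟨_, rfl⟩
  have hφm : StronglyMeasurable[(charAlg hF A).prod mY] φ := by
    rw [hφ]; exact stronglyMeasurable_condExp
  have hφint : Integrable φ (A.μ.prod ν) := by rw [hφ]; exact integrable_condExp
  have key : ∀ B : Set A.carrier, MeasurableSet B → ∀ C : Set Y, MeasurableSet C →
      ∫ z in B ×ˢ C, f z ∂(A.μ.prod ν) = ∫ z in B ×ˢ C, φ z ∂(A.μ.prod ν) := by
    intro B hB C hC
    have hrestr : A.μ.prod (ν.restrict C) = (A.μ.prod ν).restrict (univ ×ˢ C) := by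
      rw [← Measure.prod_restrict, Measure.restrict_univ]
    have hfC : Integrable f (A.μ.prod (ν.restrict C)) := by rw [hrestr]; exact hfint.integrableOn
    have hφC : Integrable φ (A.μ.prod (ν.restrict C)) := by rw [hrestr]; exact hφint.integrableOn
    have hu : Measurable[charAlg hF A] (fun x => ∫ y in C, f (x, y) ∂ν) := by
      have hsC : InF F (prodId A Y ν) (s ∩ Prod.snd ⁻¹' C) := by
        have h1 : MeasurableSet[charAlg hF (prodId A Y ν)] s := hs
        have h2 : MeasurableSet[charAlg hF (prodId A Y ν)] (Prod.snd ⁻¹' C) :=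
          (inF_cyl A Y ν hC).resolve_right (not_not.2 hF)
        exact h1.inter h2
      have h3 := measurable_section hF A Y ν hsC
      convert h3 using 2 with x
      have h4 : (fun y => f (x, y)) = (Prod.mk x ⁻¹' s).indicator (fun _ => (1 : ℝ)) := by
        rw [hf]; rfl
      rw [h4, integral_indicator_const _ (measurable_prodMk_left hs0)]
      rw [measureReal_def, Measure.restrict_apply (measurable_prodMk_left hs0)]
      simp only [smul_eq_mul, mul_one]
      rfl
    have hv : StronglyMeasurable[charAlg hF A] (fun x => ∫ y in C, φ (x, y) ∂ν) := by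
      exact @StronglyMeasurable.integral_prod_right' _ _ _ (charAlg hF A) mY (ν.restrict C) _ _ _ φ hφm
    have huv : (fun x => ∫ y in C, f (x, y) ∂ν) =ᵐ[A.μ] (fun x => ∫ y in C, φ (x, y) ∂ν) := by
      apply ae_eq_of_forall_setIntegral_eq_of_sigmaFinite' hmle
      · intro S _ _
        exact hfC.integral_prod_left.integrableOn
      · intro S _ _
        exact hφC.integral_prod_left.integrableOn
      · intro S hS _
        have e1 := setIntegral_prod (μ := A.μ) (ν := ν) f (s := S) (t := C) hfint.integrableOn
        have e2 := setIntegral_prod (μ := A.μ) (ν := ν) φ (s := S) (t := C) hφint.integrableOn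
        rw [← e1, ← e2, hφ]
        symm
        apply setIntegral_condExp hG hfint
        exact MeasurableSet.inter (m := (charAlg hF A).prod mY)
          ((MeasurableSpace.comap_le_iff_le_map.1 le_sup_left) S hS)
          ((MeasurableSpace.comap_le_iff_le_map.1 le_sup_right) C hC)
      · exact (Measurable.stronglyMeasurable hu).aestronglyMeasurable
      · exact hv.aestronglyMeasurable
    have e1 := setIntegral_prod (μ := A.μ) (ν := ν) f (s := B) (t := C) hfint.integrableOn
    have e2 := setIntegral_prod (μ := A.μ) (ν := ν) φ (s := B) (t := C) hφint.integrableOn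
    rw [e1, e2]
    exact setIntegral_congr_ae hB (huv.mono fun x hx _ => hx)
  have hfφ : f =ᵐ[A.μ.prod ν] φ := by
    have h1 : Integrable (fun z => f z - φ z) (A.μ.prod ν) := hfint.sub hφint
    have h2 : ∀ S, MeasurableSet S → ∫ z in S, (f z - φ z) ∂(A.μ.prod ν) = 0 := by
      apply setIntegral_eq_zero_of_rect h1
      intro B hB C hC
      rw [integral_sub hfint.integrableOn hφint.integrableOn, key B hB C hC, sub_self]
    have h3 := h1.ae_eq_zero_of_forall_setIntegral_eq_zero (fun S hS _ => h2 S hS)
    filter_upwards [h3] with z hz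
    have : f z - φ z = 0 := hz
    linarith
  refine ⟨φ ⁻¹' (Ioi (1 / 2)), hφm.measurable measurableSet_Ioi, ?_⟩
  apply Filter.eventuallyEq_set.2
  filter_upwards [hfφ] with z hz
  rw [mem_preimage, ← hz, hf, mem_Ioi]
  by_cases hzs : z ∈ s
  · simp only [indicator_of_mem hzs, hzs, true_iff]; norm_num
  · simp only [indicator_of_notMem hzs, hzs, false_iff]; norm_num

end Q68.CC
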