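import Mathlib
import Pool.Agent.Q68.CC.Prod

/-! Existence of the largest factor in a characteristic class. -/

open MeasureTheory ProbabilityTheory Filter Topology Set
open scoped ENNReal

namespace Q68.CC

/-- sets which agree mod null sets with a set of `m'` -/
@[reducible] def modNull {X : Type*} {m0 : MeasurableSpace X} (μ : Measure X) (m' : MeasurableSpace X) :
    MeasurableSpace X where
  MeasurableSet' s := ∃ t, MeasurableSet[m'] t ∧ s =ᵐ[μ] t
  measurableSet_empty := ⟨∅, @MeasurableSet.empty _ m', EventuallyEq.rfl⟩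
  measurableSet_compl := by
    rintro s ⟨t, ht, h⟩
    exact ⟨tᶜ, @MeasurableSet.compl _ _ m' ht, h.compl⟩
  measurableSet_iUnion := by
    intro s hs
    choose t ht h using hs
    exact ⟨⋃ n, t n, @MeasurableSet.iUnion _ _ m' _ _ ht, Filter.EventuallyEq.countable_iUnion h⟩

lemma leModNull_iff {X : Type*} {m0 : MeasurableSpace X} {μ : Measure X} {m m' : MeasurableSpace X} :
    LeModNull μ m m' ↔ m ≤ modNull μ m' := Iff.rfl

lemma LeModNull.trans {X : Type*} {m0 : MeasurableSpace X} {μ : Measure X}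
    {m m' m'' : MeasurableSpace X} (h : LeModNull μ m m') (h' : LeModNull μ m' m'') :
    LeModNull μ m m'' := by
  intro s hs
  obtain ⟨t, ht, e⟩ := h s hs
  obtain ⟨u, hu, e'⟩ := h' t ht
  exact ⟨u, hu, e.trans e'⟩

lemma LeModNull.prod {X Y : Type*} {m m' : MeasurableSpace X} {mX : MeasurableSpace X}
    {mY : MeasurableSpace Y} {μ : Measure X} {ν : Measure Y} [SFinite μ] [SFinite ν]
    (h : LeModNull μ m m') :
    LeModNull (μ.prod ν) (m.prod mY) (m'.prod mY) := by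
  rw [leModNull_iff]
  apply sup_le
  · rintro _ ⟨s, hs, rfl⟩
    obtain ⟨t, ht, e⟩ := h s hs
    refine ⟨Prod.fst ⁻¹' t, (MeasurableSpace.comap_le_iff_le_map.1 le_sup_left) t ht, ?_⟩
    exact Measure.quasiMeasurePreserving_fst.preimage_ae_eq e
  · rintro _ ⟨s, hs, rfl⟩
    exact ⟨_, (MeasurableSpace.comap_le_iff_le_map.1 le_sup_right) s hs, EventuallyEq.rfl⟩

variable {F : Aut → Prop} (hF : IsCharacteristicClass F) (A : Aut)

lemma comap_invariant {A B : Aut} {φ : A.carrier → B.carrier} (h : IsFactorMap A B φ) :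
    EqModNull A.μ ((B.ms.comap φ).comap A.T) (B.ms.comap φ) := by
  constructor
  · rintro _ ⟨_, ⟨t, ht, rfl⟩, rfl⟩
    refine ⟨φ ⁻¹' (B.T ⁻¹' t), ⟨_, B.T.measurable ht, rfl⟩, ?_⟩
    apply Filter.eventuallyEq_set.2
    filter_upwards [h.comm] with x hx
    simp only [mem_preimage, hx]
  · rintro _ ⟨t, ht, rfl⟩
    refine ⟨A.T ⁻¹' (φ ⁻¹' (B.T.symm ⁻¹' t)), ⟨_, ⟨_, B.T.symm.measurable ht, rfl⟩, rfl⟩, ?_⟩
    apply Filter.eventuallyEq_set.2
    filter_upwards [h.comm] with x hx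
    simp only [mem_preimage, hx, MeasurableEquiv.symm_apply_apply]

lemma comap_mod {X : Type*} {m m' : MeasurableSpace X} {m0 : MeasurableSpace X} {μ : Measure X}
    {T : X → X} (hT : Measure.QuasiMeasurePreserving T μ μ) (h : LeModNull μ m m') :
    LeModNull μ (m.comap T) (m'.comap T) := by
  rintro _ ⟨s, hs, rfl⟩
  obtain ⟨t, ht, e⟩ := h s hs
  exact ⟨_, ⟨t, ht, rfl⟩, hT.preimage_ae_eq e⟩

include hF in
/-- The σ-algebra `charAlg` is generated mod null sets by one factor map. -/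
theorem exists_generator : ∃ (B : Aut) (φ : A.carrier → B.carrier), IsFactorMap A B φ ∧ F B ∧
    ∀ s, InF F A s → ∃ t, MeasurableSet t ∧ s =ᵐ[A.μ] φ ⁻¹' t := by
  classical
  -- the indicator functions of the sets in `charAlg`
  have hfact : Fact ((1 : ℝ≥0∞) ≠ ∞) := ⟨by simp⟩
  let W : Type := {s : Set A.carrier // InF F A s}
  let f : W → Lp ℝ 1 A.μ := fun s => indicatorConstLp 1 s.2.1 (measure_ne_top _ _) (1 : ℝ)
  have hsep : TopologicalSpace.IsSeparable (range f) :=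
    TopologicalSpace.IsSeparable.of_separableSpace _
  obtain ⟨c, hc1, hc2, hc3⟩ := hsep.exists_countable_dense_subset
  -- choose a set for each element of the countable dense family
  have hch : ∀ g : c, ∃ s : W, f s = g := fun g => hc1 g.2
  choose S hS using hch
  have hB : ∀ g : c, ∃ (B : Aut) (φ : A.carrier → B.carrier), IsFactorMap A B φ ∧ F B ∧
      ∃ t, MeasurableSet t ∧ (S g).1 =ᵐ[A.μ] φ ⁻¹' t := fun g => (S g).2.2
  choose B φ h1 h2 u hu h3 using hB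
  have hcc : Countable c := hc2.to_subtype
  obtain ⟨C, ψ, hψ, hC, hp⟩ := join hF A B φ h1 h2
  refine ⟨C, ψ, hψ, hC, ?_⟩
  have hle : C.ms.comap ψ ≤ A.ms := by
    rintro _ ⟨t, ht, rfl⟩
    exact hψ.mp.measurable ht
  have hclosed := isClosed_aestronglyMeasurable (F := ℝ) (p := 1) (μ := A.μ) hle
  have hsub : c ⊆ {f : Lp ℝ 1 A.μ | AEStronglyMeasurable[C.ms.comap ψ] f A.μ} := by
    intro g hg
    obtain ⟨p, hpm, hpe⟩ := hp ⟨g, hg⟩
    have e2 : f (S ⟨g, hg⟩) = g := hS ⟨g, hg⟩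
    have e1 : (f (S ⟨g, hg⟩) : A.carrier → ℝ) =ᵐ[A.μ]
        (S ⟨g, hg⟩).1.indicator (fun _ => (1 : ℝ)) := indicatorConstLp_coeFn
    suffices key : AEStronglyMeasurable[C.ms.comap ψ] (f (S ⟨g, hg⟩)) A.μ from
      (congrArg (fun q : Lp ℝ 1 A.μ => AEStronglyMeasurable[C.ms.comap ψ] q A.μ) e2).mp key
    have e3 : (S ⟨g, hg⟩).1.indicator (fun _ => (1 : ℝ)) =ᵐ[A.μ]
        (ψ ⁻¹' (p ⁻¹' (u ⟨g, hg⟩))).indicator (fun _ => (1 : ℝ)) := by
      have e4 : φ ⟨g, hg⟩ ⁻¹' (u ⟨g, hg⟩) = ψ ⁻¹' (p ⁻¹' (u ⟨g, hg⟩)) := by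
        ext x
        simp only [mem_preimage, hpe]
      rw [← e4]
      exact indicator_ae_eq_of_ae_eq_set (h3 ⟨g, hg⟩)
    refine ⟨_, ?_, e1.trans e3⟩
    exact StronglyMeasurable.indicator (@stronglyMeasurable_const _ _ (C.ms.comap ψ) _ _)
      ⟨_, hpm (hu ⟨g, hg⟩), rfl⟩
  intro s hs
  have hmem : f ⟨s, hs⟩ ∈ {f : Lp ℝ 1 A.μ | AEStronglyMeasurable[C.ms.comap ψ] f A.μ} :=
    (closure_minimal hsub hclosed) (hc3 ⟨_, rfl⟩)
  obtain ⟨g', hg', hge⟩ := hmem
  have hind : s.indicator (fun _ => (1 : ℝ)) =ᵐ[A.μ] g' := by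
    have : (f ⟨s, hs⟩ : A.carrier → ℝ) =ᵐ[A.μ] s.indicator (fun _ => (1 : ℝ)) :=
      indicatorConstLp_coeFn
    exact this.symm.trans hge
  obtain ⟨t, ht, e⟩ := hg'.measurable (measurableSet_Ioi (a := (1 / 2 : ℝ)))
  refine ⟨t, ht, ?_⟩
  rw [e]
  apply Filter.eventuallyEq_set.2
  filter_upwards [hind] with z hz
  rw [mem_preimage, ← hz, mem_Ioi]
  by_cases hzs : z ∈ s
  · simp only [indicator_of_mem hzs, hzs, true_iff]; norm_num
  · simp only [indicator_of_notMem hzs, hzs, false_iff]; norm_num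

/-- A sub-σ-algebra whose factor lies in `F` is contained in `charAlg` mod null sets. -/
lemma FactorIn.le_charAlg {𝒟 : MeasurableSpace A.carrier} (h : FactorIn F A 𝒟) :
    𝒟 ≤ charAlg hF A := by
  intro s hs
  obtain ⟨B, φ, h1, h2, h3⟩ := h.mem
  obtain ⟨_, ⟨t, ht, rfl⟩, e⟩ := h3.1 s hs
  exact ⟨h.le s hs, B, φ, h1, h2, t, ht, e⟩

/-- `charAlg` is the largest sub-σ-algebra whose factor lies in `F`. -/
theorem charAlg_largest : IsLargest F A (charAlg hF A) := by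
  obtain ⟨B, φ, h1, h2, h3⟩ := exists_generator hF A
  have heq : EqModNull A.μ (charAlg hF A) (B.ms.comap φ) := by
    constructor
    · intro s hs
      obtain ⟨t, ht, e⟩ := h3 s hs
      exact ⟨φ ⁻¹' t, ⟨t, ht, rfl⟩, e⟩
    · rintro _ ⟨t, ht, rfl⟩
      exact ⟨φ ⁻¹' t, ⟨h1.mp.measurable ht, B, φ, h1, h2, t, ht, EventuallyEq.rfl⟩,
        EventuallyEq.rfl⟩
  refine ⟨⟨charAlg_le hF A, ?_, B, φ, h1, h2, heq⟩, ?_⟩
  · have h4 := comap_invariant h1
    have h5 := A.mp.quasiMeasurePreserving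
    exact ⟨((comap_mod h5 heq.1).trans h4.1).trans heq.2,
      (heq.1.trans h4.2).trans (comap_mod h5 heq.2)⟩
  · intro 𝒟' h' s hs
    exact ⟨s, FactorIn.le_charAlg hF A h' s hs, EventuallyEq.rfl⟩

/-- Two largest σ-algebras agree mod null sets. -/
lemma IsLargest.unique {𝒟 𝒟' : MeasurableSpace A.carrier} (h : IsLargest F A 𝒟)
    (h' : IsLargest F A 𝒟') : EqModNull A.μ 𝒟 𝒟' := ⟨h'.2 𝒟 h.1, h.2 𝒟' h'.1⟩

include hF in
/-- The product formula. -/
theorem product_formula (Y : Type) [mY : MeasurableSpace Y] [StandardBorelSpace Y]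
    (ν : Measure Y) [IsProbabilityMeasure ν] (𝒜 : MeasurableSpace A.carrier)
    (ℰ : MeasurableSpace (prodId A Y ν).carrier) (h𝒜 : IsLargest F A 𝒜)
    (hℰ : IsLargest F (prodId A Y ν) ℰ) :
    EqModNull (prodId A Y ν).μ ℰ (𝒜.prod mY) := by
  have e1 := IsLargest.unique _ hℰ (charAlg_largest hF (prodId A Y ν))
  have e2 := IsLargest.unique _ h𝒜 (charAlg_largest hF A)
  have e3 : LeModNull (prodId A Y ν).μ (𝒜.prod mY) ((charAlg hF A).prod mY) :=
    LeModNull.prod e2.1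
  have e4 : LeModNull (prodId A Y ν).μ ((charAlg hF A).prod mY) (𝒜.prod mY) :=
    LeModNull.prod e2.2
  constructor
  · refine (e1.1.trans ?_).trans e4
    intro s hs
    exact prod_main hF A Y ν hs
  · refine (e3.trans ?_).trans e1.2
    intro s hs
    exact ⟨s, le_charAlg_prod hF A Y ν s hs, EventuallyEq.rfl⟩

end Q68.CC
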